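import Pool.Agent.N993.RK.Stm

set_option autoImplicit false

/-!
# Project RK (helper993): the unipotent elements are commutators (helper123)
-/

namespace Pool.Agent.N123.RK

open Matrix Pool.Agent.N993.RK
open scoped commutatorElement

section

variable {F : Type} [Field F] [CharP F 5]

lemma five : (5 : F) = 0 := by
  have := CharP.cast_eq_zero F 5
  exact_mod_cast this

/-- the base change -/
def cj (A : M3 F) : M3 F := C F * A * Ci F

lemma C_Ci : C F * Ci F = 1 := by
  have h5 : (5 : F) = 0 := five
  ext i j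
  fin_cases i <;> fin_cases j <;> simp [C, Ci, Matrix.mul_apply, Fin.sum_univ_three] <;>
    first
    | linear_combination h5
    | linear_combination 2 * h5
    | linear_combination 3 * h5

lemma Ci_C : Ci F * C F = 1 := mul_eq_one_comm.1 C_Ci

lemma cj_mul (A B : M3 F) : cj A * cj B = cj (A * B) := by
  unfold cj
  calc C F * A * Ci F * (C F * B * Ci F) = C F * A * (Ci F * C F) * B * Ci F := by
        simp only [Matrix.mul_assoc]
    _ = C F * (A * B) * Ci F := by rw [Ci_C, Matrix.mul_one, Matrix.mul_assoc (C F) A B]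

lemma cj_one : cj (1 : M3 F) = 1 := by
  unfold cj
  rw [Matrix.mul_one, C_Ci]

lemma cj_inv {g : SL F} {A B : M3 F} (hg : mt g = cj A) (h : A * B = 1) : mt g⁻¹ = cj B := by
  calc mt g⁻¹ = mt g⁻¹ * (cj A * cj B) := by rw [cj_mul, h, cj_one, Matrix.mul_one]
    _ = cj B := by rw [← hg, ← Matrix.mul_assoc, mt_inv_mul, Matrix.one_mul]

lemma NU_mul (n : ℕ) (a b a' b' : F) :
    NU n a b * NU n a' b' = NU n (a + a') (b + b' - a ^ (5 ^ n) * a') := by
  have h := add_pow_char_pow (R := F) (p := 5) (n := n) a a'
  ext i j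
  fin_cases i <;> fin_cases j <;> simp [NU, Matrix.mul_apply, Fin.sum_univ_three, h] <;> ring

lemma NU_zero (n : ℕ) : NU n (0 : F) 0 = 1 := by
  ext i j
  fin_cases i <;> fin_cases j <;> simp [NU]

/-- the diagonal element and its inverse -/
def TT (F : Type) [Field F] : M3 F := !![2, 0, 0; 0, 3, 0; 0, 0, 1]

/-- the inverse of `TT` -/
def Ti (F : Type) [Field F] : M3 F := !![3, 0, 0; 0, 2, 0; 0, 0, 1]

lemma TT_Ti : TT F * Ti F = 1 := by
  have h5 : (5 : F) = 0 := five
  ext i j
  fin_cases i <;> fin_cases j <;> simp [TT, Ti, Matrix.mul_apply, Fin.sum_univ_three] <;>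
    first
    | linear_combination h5
    | linear_combination 2 * h5
    | linear_combination 3 * h5

lemma two_pow (n : ℕ) : (2 : F) ^ (5 ^ n) = 2 := by
  have h := map_ofNat (iterateFrobenius F 5 n) 2
  rw [iterateFrobenius_def] at h
  exact h

lemma T_conj (n : ℕ) (a b : F) : TT F * NU n a b * Ti F = NU n (2 * a) (4 * b) := by
  have h5 : (5 : F) = 0 := five
  have h := two_pow (F := F) n
  ext i j
  fin_cases i <;> fin_cases j <;>
    simp [TT, Ti, NU, Matrix.mul_apply, Fin.sum_univ_three, mul_pow, h] <;>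
    first
    | linear_combination h5
    | linear_combination 2 * h5
    | linear_combination a * h5
    | linear_combination (0 : F) * h5

/-- the commutator with the diagonal element -/
lemma comm_mt {t g : SL F} {n : ℕ} {a b : F} (ht : mt t = cj (TT F)) (hg : mt g = cj (NU n a b))
    (hab : b + b ^ (5 ^ n) + a * a ^ (5 ^ n) = 0) :
    mt (t * g * t⁻¹ * g⁻¹) = cj (NU n a (4 * b + b ^ (5 ^ n) + 2 * (a * a ^ (5 ^ n)))) := by
  have h1 : mt t⁻¹ = cj (Ti F) := cj_inv ht TT_Ti
  have h2 : mt g⁻¹ = cj (NU n (-a) (b ^ (5 ^ n))) := by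
    refine cj_inv hg ?_
    rw [NU_mul, ← NU_zero n]
    congr 1
    · ring
    · linear_combination hab
  rw [mt_mul, mt_mul, mt_mul, ht, hg, h1, h2, cj_mul, cj_mul, T_conj, cj_mul, NU_mul]
  congr 2
  · ring
  · rw [mul_pow, two_pow]
    ring

end

theorem t_PERF : S_PERF := by
  intro n hn S hS1 hS2 U hU
  have h5 : (5 : Om) = 0 := five
  obtain ⟨t, htS, ht⟩ := hS2
  have ht' : mt t = cj (TT Om) := ht
  constructor
  · intro g hg
    obtain ⟨a, b, ha, hb, hab, hm⟩ := (hU g).1 hg
    have hm' : mt g.1 = cj (NU n a b) := hm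
    set be : Om := b ^ (5 ^ n) - b with hbe
    have hq : ∀ x : Om, x ^ (5 ^ (2 * n)) = (x ^ (5 ^ n)) ^ (5 ^ n) := by
      intro x
      rw [← pow_mul, ← pow_add]
      congr 2
      ring
    have hbq : be ^ (5 ^ n) = -be := by
      rw [hbe, sub_pow_char_pow, ← hq, hb]
      ring
    have h2q : (2 * be) ^ (5 ^ n) = -(2 * be) := by
      rw [mul_pow, two_pow, hbq]
      ring
    have h2qq : (2 * be) ^ (5 ^ (2 * n)) = 2 * be := by
      rw [hq, h2q, neg_pow, h2q, Odd.neg_one_pow (Odd.pow (by decide))]
      ring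
    obtain ⟨x, hxS, hx⟩ := hS1 0 (2 * be) (by
      rw [zero_pow (by positivity)]) h2qq (by rw [h2q]; ring)
    have hx' : mt x = cj (NU n 0 (2 * be)) := hx
    have hkey : g = ⁅(⟨t, htS⟩ : S), g⁆ * ⁅(⟨t, htS⟩ : S), (⟨x, hxS⟩ : S)⁆ := by
      refine Subtype.ext (mt_inj ?_)
      have e1 := comm_mt ht' hm' hab
      have e2 := comm_mt ht' hx' (by rw [h2q]; ring)
      have e3 : mt (t * g.1 * t⁻¹ * g.1⁻¹ * (t * x * t⁻¹ * x⁻¹)) = mt g.1 := by
        rw [mt_mul, e1, e2, cj_mul, NU_mul, hm']
        congr 2
        · ring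
        · rw [h2q, hbe]
          linear_combination (2 : Om) * hab + (b ^ (5 ^ n) - b) * h5
      exact e3.symm
    rw [hkey]
    exact mul_mem (Subgroup.commutator_mem_commutator (Subgroup.mem_top _) (Subgroup.mem_top _))
      (Subgroup.commutator_mem_commutator (Subgroup.mem_top _) (Subgroup.mem_top _))
  · -- the map to the additive group
    have hinj : ∀ {a b a' b' : Om}, cj (NU n a b) = cj (NU n a' b') → a = a' := by
      intro a b a' b' h
      have h1 : Ci Om * cj (NU n a b) * C Om = Ci Om * cj (NU n a' b') * C Om := by rw [h]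
      have h2 : ∀ A : M3 Om, Ci Om * cj A * C Om = A := by
        intro A
        unfold cj
        calc Ci Om * (C Om * A * Ci Om) * C Om = (Ci Om * C Om) * A * (Ci Om * C Om) := by
              simp only [Matrix.mul_assoc]
          _ = A := by rw [Ci_C, Matrix.one_mul, Matrix.mul_one]
      rw [h2, h2] at h1
      have h3 := congrFun (congrFun h1 2) 1
      simpa [NU] using h3
    choose al bl hal hbl hcl hml using fun g : U => (hU g.1).1 g.2
    have hml' : ∀ g : U, mt g.1.1 = cj (NU n (al g) (bl g)) := hml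
    have hmul : ∀ g h : U, al (g * h) = al g + al h := by
      intro g h
      refine hinj (b := bl (g * h)) (b' := bl g + bl h - al g ^ (5 ^ n) * al h) ?_
      rw [← hml', ← NU_mul, ← cj_mul, ← hml', ← hml']
      rfl
    let f : U →* Multiplicative Om :=
      { toFun := fun g => Multiplicative.ofAdd (al g)
        map_one' := by
          have := hmul 1 1
          rw [mul_one] at this
          have h0 : al 1 = 0 := by linear_combination -this
          rw [h0]
          rfl
        map_mul' := fun g h => by rw [hmul]; rfl }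
    have hker : Group.IsSolvable f.ker := by
      refine Group.isSolvable_of_comm fun g h => ?_
      have hg : al g.1 = 0 := by
        have := g.2
        rw [MonoidHom.mem_ker] at this
        exact this
      have hh : al h.1 = 0 := by
        have := h.2
        rw [MonoidHom.mem_ker] at this
        exact this
      refine Subtype.ext (Subtype.ext (Subtype.ext (mt_inj ?_)))
      have e1 := hml' g.1
      have e2 := hml' h.1
      rw [hg] at e1
      rw [hh] at e2
      have e3 : mt (g.1.1.1 * h.1.1.1) = mt (h.1.1.1 * g.1.1.1) := by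
        rw [mt_mul, mt_mul, e1, e2, cj_mul, cj_mul, NU_mul, NU_mul]
        congr 2
        ring
      exact e3
    exact Group.isSolvable_of_ker_le_range f.ker.subtype f (by rw [Subgroup.range_subtype])

end Pool.Agent.N123.RK
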